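import Mathlib
import Pool.Agent.Helper21.SR.St

/-!
# SR, module REF: refinement decreases the energy
-/

set_option autoImplicit false

namespace Pool.Agent.Helper8.SR

open Finset Pool.Agent.Helper21.SR

/-- One fibre. -/
private theorem fibre {ι κ : Type} [DecidableEq ι] [DecidableEq κ] (Ω : Finset ι) (w h : ι → ℝ)
    (key : ι → κ) (hw : ∀ i ∈ Ω, 0 ≤ w i) (hW : 0 < ∑ i ∈ Ω, w i) (u : κ) :
    (∑ i ∈ Ω.filter (fun i => key i = u), ∑ j ∈ Ω.filter (fun i => key i = u),
      w i * w j * |h i - h j|) / (∑ i ∈ Ω.filter (fun i => key i = u), w i) ≤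
    2 * (∑ i ∈ Ω.filter (fun i => key i = u), ∑ j ∈ Ω, w i * w j * |h i - h j|) / (∑ i ∈ Ω, w i) -
      (∑ i ∈ Ω.filter (fun i => key i = u), w i) * (∑ i ∈ Ω, ∑ j ∈ Ω, w i * w j * |h i - h j|) /
        (∑ i ∈ Ω, w i) ^ 2 := by
  have hF : ∀ i ∈ Ω.filter (fun i => key i = u), 0 ≤ w i := fun i hi => hw i (Finset.mem_filter.1 hi).1
  have hm0 : 0 ≤ ∑ i ∈ Ω.filter (fun i => key i = u), w i := Finset.sum_nonneg hF
  rcases hm0.eq_or_lt with h0 | hm
  · have hz : ∀ i ∈ Ω.filter (fun i => key i = u), w i = 0 :=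
      (Finset.sum_eq_zero_iff_of_nonneg hF).1 h0.symm
    have h1 : ∑ i ∈ Ω.filter (fun i => key i = u), ∑ j ∈ Ω, w i * w j * |h i - h j| = 0 :=
      Finset.sum_eq_zero fun i hi => Finset.sum_eq_zero fun j _ => by rw [hz i hi]; ring
    rw [h1, ← h0]
    simp
  · set m := ∑ i ∈ Ω.filter (fun i => key i = u), w i with hmd
    set W := ∑ i ∈ Ω, w i with hWd
    set a : ι → ℝ := fun i => if key i = u then w i else 0 with ha
    have e1 : ∑ i ∈ Ω, a i = m := by rw [hmd, Finset.sum_filter]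
    have hc := Pool.Agent.Helper17.WES.cnd Ω (fun i => a i / m - w i / W) h (by
      rw [Finset.sum_sub_distrib, ← Finset.sum_div, ← Finset.sum_div, e1, ← hWd,
        div_self hm.ne', div_self hW.ne', sub_self])
    set S1 := ∑ i ∈ Ω.filter (fun i => key i = u), ∑ j ∈ Ω.filter (fun i => key i = u),
      w i * w j * |h i - h j| with hS1
    set S2 := ∑ i ∈ Ω.filter (fun i => key i = u), ∑ j ∈ Ω, w i * w j * |h i - h j| with hS2
    set S3 := ∑ i ∈ Ω, ∑ j ∈ Ω, w i * w j * |h i - h j| with hS3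
    have f1 : ∑ i ∈ Ω, ∑ j ∈ Ω, a i * a j * |h i - h j| = S1 := by
      rw [hS1, Finset.sum_filter]
      refine Finset.sum_congr rfl fun i _ => ?_
      by_cases hi : key i = u
      · rw [if_pos hi, Finset.sum_filter]
        refine Finset.sum_congr rfl fun j _ => ?_
        by_cases hj : key j = u
        · simp [ha, hi, hj]
        · simp [ha, hj]
      · rw [if_neg hi]
        refine Finset.sum_eq_zero fun j _ => ?_
        simp [ha, hi]
    have f2 : ∑ i ∈ Ω, ∑ j ∈ Ω, a i * w j * |h i - h j| = S2 := by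
      rw [hS2, Finset.sum_filter]
      refine Finset.sum_congr rfl fun i _ => ?_
      by_cases hi : key i = u
      · rw [if_pos hi]
        refine Finset.sum_congr rfl fun j _ => ?_
        simp [ha, hi]
      · rw [if_neg hi]
        refine Finset.sum_eq_zero fun j _ => ?_
        simp [ha, hi]
    have f3 : ∑ i ∈ Ω, ∑ j ∈ Ω, w i * a j * |h i - h j| = S2 := by
      rw [← f2, Finset.sum_comm]
      refine Finset.sum_congr rfl fun i _ => Finset.sum_congr rfl fun j _ => ?_
      rw [abs_sub_comm]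
      ring
    have f4 : ∑ i ∈ Ω, ∑ j ∈ Ω, (a i / m - w i / W) * (a j / m - w j / W) * |h i - h j| =
        S1 / m ^ 2 - 2 * (S2 / (m * W)) + S3 / W ^ 2 := by
      have : ∀ i j, (a i / m - w i / W) * (a j / m - w j / W) * |h i - h j| =
          (1 / m ^ 2) * (a i * a j * |h i - h j|) - (1 / (m * W)) * (a i * w j * |h i - h j|) -
            (1 / (m * W)) * (w i * a j * |h i - h j|) + (1 / W ^ 2) * (w i * w j * |h i - h j|) := by
        intro i j
        field_simp
        ring
      simp only [this, Finset.sum_add_distrib, Finset.sum_sub_distrib, ← Finset.mul_sum, f1, f2, f3]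
      rw [← hS3]
      ring
    rw [f4] at hc
    have h5 : m * (S1 / m ^ 2 - 2 * (S2 / (m * W)) + S3 / W ^ 2) ≤ 0 :=
      mul_nonpos_of_nonneg_of_nonpos hm.le hc
    have h6 : m * (S1 / m ^ 2 - 2 * (S2 / (m * W)) + S3 / W ^ 2) =
        S1 / m - (2 * S2 / W - m * S3 / W ^ 2) := by
      field_simp
      ring
    linarith

theorem hRef : StRef := by
  intro ι κ _ _ Ω w h key hw
  have hW0 : 0 ≤ ∑ i ∈ Ω, w i := Finset.sum_nonneg hw
  rcases hW0.eq_or_lt with h0 | hW
  · have hz : ∀ i ∈ Ω, w i = 0 := (Finset.sum_eq_zero_iff_of_nonneg hw).1 h0.symm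
    rw [← h0, div_zero]
    refine le_of_eq (Finset.sum_eq_zero fun u _ => ?_)
    rw [Finset.sum_eq_zero (s := Ω.filter (fun i => key i = u)) (f := w)
      (fun i hi => hz i (Finset.mem_filter.1 hi).1), div_zero]
  · refine le_trans (Finset.sum_le_sum fun u _ => fibre Ω w h key hw hW u) ?_
    have hmap : ∀ i ∈ Ω, key i ∈ Ω.image key := fun i hi => Finset.mem_image_of_mem key hi
    rw [Finset.sum_sub_distrib, ← Finset.sum_div, ← Finset.mul_sum, ← Finset.sum_div,
      ← Finset.sum_mul, Finset.sum_fiberwise_of_maps_to hmap, Finset.sum_fiberwise_of_maps_to hmap]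
    refine le_of_eq ?_
    field_simp
    ring

end Pool.Agent.Helper8.SR
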